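import Pool.Agent.Helper54.UN.St

set_option autoImplicit false

open Set Filter Topology

noncomputable section

namespace Pool.Agent.Helper54.UNC

open Pool.Agent.Helper71.UN Pool.Agent.Helper54.UN

theorem hELZ : StELZ := by
  intro a b τ g hG x hx ho
  have hs := s3
  have hs1 := s3_gt
  have hs2 := s3_lt
  have hX : x.re = - Real.sqrt 3 * x.im := by
    unfold el at hx
    linarith
  obtain ⟨na1, na1'⟩ := abs_le.1 hG.na1
  obtain ⟨na2, na2'⟩ := abs_le.1 hG.na2
  have f6 : lf om (-1) x = Real.sqrt 3 / 2 - 2 * x.im := by
    simp only [lf_eq, om_re, om_im, Complex.neg_re, Complex.neg_im, Complex.one_re,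
      Complex.one_im, hX]
    linear_combination (-x.im / 2) * hs
  have f6' : lf om (-1) (-x) = Real.sqrt 3 / 2 + 2 * x.im := by
    simp only [lf_eq, om_re, om_im, Complex.neg_re, Complex.neg_im, Complex.one_re,
      Complex.one_im, hX]
    linear_combination (x.im / 2) * hs
  unfold ouH at ho
  push Not at ho
  obtain ⟨⟨-, -, h6⟩, -, -, h6'⟩ := ho
  rw [f6] at h6
  rw [f6'] at h6'
  rcases eq_or_lt_of_le h6 with h | h
  · right; left
    refine ⟨1 / 2, 1 / 2, by norm_num, by norm_num, by norm_num, ?_⟩
    apply Complex.ext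
    · simp [om_re, hX]
      linear_combination (Real.sqrt 3 / 2) * h + (1 / 4) * hs
    · simp [om_im]
      linarith
  · rcases eq_or_lt_of_le h6' with h' | h'
    · right; right
      refine ⟨1 / 2, 1 / 2, by norm_num, by norm_num, by norm_num, ?_⟩
      apply Complex.ext
      · simp [om_re, hX]
        linear_combination (Real.sqrt 3 / 2) * h' + (1 / 4) * hs
      · simp [om_im]
        linarith
    · left
      have y1 : x.im < 9 / 20 := by linarith
      have y2 : - (9 / 20) < x.im := by linarith
      have e5 : ∀ Y : ℝ, - (9 / 20) < Y → Y < 9 / 20 →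
          0 < (a.re - 1) * (Y - 0) - (a.im - 0) * (- Real.sqrt 3 * Y - 1) := by
        intro Y u1 u2
        have v : (a.re - 1) * (Y - 0) - (a.im - 0) * (- Real.sqrt 3 * Y - 1) =
            a.im + Y * (Real.sqrt 3 * a.im - (1 - a.re)) := by ring
        rw [v]
        have w1 : Real.sqrt 3 * a.im - (1 - a.re) ≤ 11 / 10 := by nlinarith
        have w2 : 9 / 10 ≤ Real.sqrt 3 * a.im - (1 - a.re) := by nlinarith
        nlinarith
      have e1 : ∀ Y : ℝ, - (9 / 20) < Y → Y < 9 / 20 →
          0 < (-1 / 2 - a.re) * (Y - a.im) - (Real.sqrt 3 / 2 - a.im) * (- Real.sqrt 3 * Y - a.re) := by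
        intro Y u1 u2
        have w1 : (-1 / 2 - a.re) * (Y - a.im) ≥ 3 / 10 := by nlinarith
        have w2 : |(Real.sqrt 3 / 2 - a.im) * (- Real.sqrt 3 * Y - a.re)| ≤ 1 / 50 * 2 := by
          rw [abs_mul]
          apply mul_le_mul
          · rw [abs_le]; constructor <;> linarith
          · rw [abs_le]; constructor <;> nlinarith
          · exact abs_nonneg _
          · norm_num
        have := abs_le.1 w2
        linarith [this.2]
      refine ⟨⟨?_, ?_, ?_⟩, ?_, ?_, ?_⟩
      · have := e5 x.im y2 y1
        simp only [lf_eq, Complex.one_re, Complex.one_im, hX]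
        exact this
      · have := e1 x.im y2 y1
        simp only [lf_eq, om_re, om_im, hX]
        exact this
      · rw [f6]; exact h
      · have := e5 (-x.im) (by linarith) (by linarith)
        simp only [lf_eq, Complex.one_re, Complex.one_im, Complex.neg_re, Complex.neg_im, hX]
        linarith
      · have := e1 (-x.im) (by linarith) (by linarith)
        simp only [lf_eq, om_re, om_im, Complex.neg_re, Complex.neg_im, hX]
        linarith
      · rw [f6']; exact h'

end Pool.Agent.Helper54.UNC
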