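import Pool.Agent.Helper54.UN.St

set_option autoImplicit false

open Set Filter Topology

noncomputable section

namespace Pool.Agent.Helper54.UNC

open Pool.Agent.Helper71.UN Pool.Agent.Helper54.UN

private theorem far1 {a b τ g : ℂ} (hG : Geo a b τ g) (x : ℂ) (h5 : 0 ≤ lf 1 a x)
    (h7 : 0 ≤ lf (-om) 1 x) : 0 ≤ lf 1 b x := by
  have p := plu3 (a - 1) (-(1 + om)) (b - 1) (x - 1)
  have e5 : lf 1 a x = dt (a - 1) (x - 1) := rfl
  have e4 : lf 1 b x = dt (b - 1) (x - 1) := rfl
  have e7 : lf (-om) 1 x = - dt (-(1 + om)) (x - 1) := by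
    simp only [lf_eq, dt_eq, Complex.sub_re, Complex.sub_im, Complex.neg_re, Complex.neg_im,
      Complex.add_re, Complex.add_im, Complex.one_re, Complex.one_im]
    ring
  rw [← e5, ← e4] at p
  have e7' : dt (-(1 + om)) (x - 1) = - lf (-om) 1 x := by rw [e7]; ring
  rw [e7'] at p
  have t56 := hG.t56
  have t45 := hG.t45
  have t46 := hG.t46
  have h : 0 ≤ dt (a - 1) (-(1 + om)) * lf 1 b x := by
    rw [p]
    have := mul_nonneg h7 t45.le
    have := mul_nonneg h5 t46.le
    linarith
  by_contra hc
  have := mul_neg_of_pos_of_neg t56 (not_le.1 hc)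
  linarith

private theorem far2 {a b τ g : ℂ} (hG : Geo a b τ g) (x : ℂ) (h1 : 0 ≤ lf a om x)
    (h6 : 0 ≤ lf om (-1) x) : 0 ≤ lf b om x := by
  have p := plu3 (-(1 + om)) (a - om) (b - om) (x - om)
  have e1 : dt (a - om) (x - om) = - lf a om x := by
    simp only [lf_eq, dt_eq, Complex.sub_re, Complex.sub_im]
    ring
  have e2 : dt (b - om) (x - om) = - lf b om x := by
    simp only [lf_eq, dt_eq, Complex.sub_re, Complex.sub_im]
    ring
  have e6 : dt (-(1 + om)) (x - om) = lf om (-1) x := by
    simp only [lf_eq, dt_eq, Complex.sub_re, Complex.sub_im, Complex.neg_re, Complex.neg_im,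
      Complex.add_re, Complex.add_im, Complex.one_re, Complex.one_im]
    ring
  have e7 : dt (b - om) (-(1 + om)) = - dt (-(1 + om)) (b - om) := by simp only [dt_eq]; ring
  have e8 : dt (b - om) (a - om) = - dt (a - om) (b - om) := by simp only [dt_eq]; ring
  rw [e1, e2, e6, e7, e8] at p
  have t61 := hG.t61
  have t62 := hG.t62
  have t12 := hG.t12
  have h : 0 ≤ dt (-(1 + om)) (a - om) * lf b om x := by
    have := mul_nonneg h1 t62.le
    have := mul_nonneg h6 t12.le
    linarith
  by_contra hc
  have := mul_neg_of_pos_of_neg t61 (not_le.1 hc)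
  linarith

private theorem e67 (x : ℂ) : lf (-om) 1 x = lf om (-1) (-x) := by
  simp only [lf_eq, Complex.neg_re, Complex.neg_im, Complex.one_re, Complex.one_im]
  ring

theorem hFAR : StFAR := by
  intro a b τ g hG x
  refine ⟨far1 hG x, far2 hG x, ?_⟩
  have key : ∀ y, ouH b y → ¬ inH a y := by
    rintro y ho ⟨⟨k1, k2, k3⟩, k4, k5, k6⟩
    have q1 := far1 hG y k1.le (by rw [e67]; exact k6.le)
    have q2 := far2 hG y k2.le k3.le
    have q3 := far1 hG (-y) k4.le (by rw [e67, neg_neg]; exact k3.le)
    have q4 := far2 hG (-y) k5.le k6.le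
    rcases ho with (h | h | h) | (h | h | h) <;> linarith
  intro h
  have c : ∀ p q : ℂ, Continuous fun y : ℂ => lf p q (-y) := fun p q =>
    (continuous_lf p q).comp continuous_neg
  have ho : ∀ᶠ y in 𝓝 x, ouH b y := by
    rcases h with (h | h | h) | (h | h | h)
    · filter_upwards [evn (continuous_lf _ _) h] with y hy
      exact Or.inl (Or.inl hy)
    · filter_upwards [evn (continuous_lf _ _) h] with y hy
      exact Or.inl (Or.inr (Or.inl hy))
    · filter_upwards [evn (continuous_lf _ _) h] with y hy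
      exact Or.inl (Or.inr (Or.inr hy))
    · filter_upwards [evn (c _ _) h] with y hy
      exact Or.inr (Or.inl hy)
    · filter_upwards [evn (c _ _) h] with y hy
      exact Or.inr (Or.inr (Or.inl hy))
    · filter_upwards [evn (c _ _) h] with y hy
      exact Or.inr (Or.inr (Or.inr hy))
  filter_upwards [ho] with y hy
  exact ⟨key y hy, hy⟩

end Pool.Agent.Helper54.UNC
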